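import Pool.Agent.PST.StmtsK1

/-! Row NKB of squad PST: central elements in the Brauer kernel of `V` are nilpotent. -/

open scoped BigOperators

noncomputable section

namespace Pool.Agent.PST.H52

open Pool.Agent.PFC (tw IsTv)
open Pool.Agent.PSS
open Polynomial

/-- the Fitting idempotent of a non-nilpotent element -/
theorem fitting {F A : Type} [Field F] [Ring A] [Algebra F A] [FiniteDimensional F A] (z : A)
    (hz : ¬ IsNilpotent z) (n : ℕ) : ∃ p : Polynomial F,
    (aeval z p * z ^ n) * (aeval z p * z ^ n) = aeval z p * z ^ n ∧ aeval z p * z ^ n ≠ 0 := by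
  have hint : IsIntegral F z := IsIntegral.of_finite F z
  have hne : minpoly F z ≠ 0 := minpoly.ne_zero hint
  obtain ⟨r, hr, hnd⟩ := Polynomial.exists_eq_pow_rootMultiplicity_mul_and_not_dvd
    (minpoly F z) hne (0 : F)
  set m := (minpoly F z).rootMultiplicity 0 with hm
  have hX : (X - C (0 : F)) = X := by rw [C_0, sub_zero]
  rw [hX] at hr hnd
  have hcop : IsCoprime ((X : Polynomial F) ^ (m + n)) r :=
    IsCoprime.pow_left ((irreducible_X (R := F)).coprime_iff_not_dvd.2 hnd)
  obtain ⟨s, t, hst⟩ := hcop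
  have h0 : aeval z ((X : Polynomial F) ^ m * r) = 0 := by
    rw [← hr]; exact minpoly.aeval F z
  have hf : aeval z (s * X ^ m) * z ^ n = aeval z (s * X ^ (m + n)) := by
    rw [pow_add, ← mul_assoc, map_mul (aeval z) (s * X ^ m) (X ^ n), map_pow, aeval_X]
  refine ⟨s * X ^ m, ?_, ?_⟩
  · rw [hf]
    have h1 : s * X ^ (m + n) = s * X ^ (m + n) * (s * X ^ (m + n)) +
        s * X ^ n * t * (X ^ m * r) := by
      calc s * X ^ (m + n) = s * X ^ (m + n) * (s * X ^ (m + n) + t * r) := by
            rw [hst, mul_one]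
        _ = _ := by ring
    have h2 := congrArg (aeval z) h1
    rw [map_add, map_mul (aeval z) (s * X ^ n * t) (X ^ m * r), h0, mul_zero, add_zero,
      map_mul (aeval z) (s * X ^ (m + n)) (s * X ^ (m + n))] at h2
    exact h2.symm
  · rw [hf]
    intro h
    apply hz
    refine ⟨m, ?_⟩
    have h1 : (X : Polynomial F) ^ m = X ^ m * (s * X ^ (m + n)) + t * (X ^ m * r) := by
      calc (X : Polynomial F) ^ m = X ^ m * (s * X ^ (m + n) + t * r) := by
            rw [hst, mul_one]
        _ = _ := by ring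
    have h2 := congrArg (aeval z) h1
    rw [map_add, map_mul (aeval z) (X ^ m) (s * X ^ (m + n)), h, mul_zero, zero_add,
      map_mul (aeval z) t (X ^ m * r), h0, mul_zero, map_pow, aeval_X] at h2
    exact h2

theorem aeval_central {F A : Type} [Field F] [Ring A] [Algebra F A] {z : A}
    (hz : ∀ a, z * a = a * z) (p : Polynomial F) (a : A) : aeval z p * a = a * aeval z p := by
  have h1 : aeval z p ∈ Algebra.adjoin F ({z} : Set A) := aeval_mem_adjoin_singleton F z
  have h2 : Algebra.adjoin F ({z} : Set A) ≤ Subalgebra.center F A := by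
    apply Algebra.adjoin_le
    intro w hw
    rw [Set.mem_singleton_iff] at hw
    subst hw
    exact Subalgebra.mem_center_iff.2 (fun b => (hz b).symm)
  exact (Subalgebra.mem_center_iff.1 (h2 h1) a).symm

theorem bkr_bot {R H M : Type} [CommRing R] [Group H] [AddCommGroup M] [Module R M]
    (ρ : H →* (M →ₗ[R] M)) : BKR ρ (⊥ : Subgroup H) = ⊥ := by
  have h : {n : M | ∃ (P' : Subgroup H) (S : Finset H) (m : M),
      P' < (⊥ : Subgroup H) ∧ IsTv P' ⊥ S ∧ m ∈ FxR ρ P' ∧ n = ∑ x ∈ S, ρ x m} = ∅ := by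
    apply Set.eq_empty_iff_forall_notMem.2
    rintro x ⟨P', S, m, hlt, -⟩
    exact not_lt_bot hlt
  unfold BKR
  rw [h, Submodule.span_empty]

theorem nkb (hBki : S0.BkiStmt) : NkbStmt := by
  intro F V E A _ _ _ _ _ _ φ α hCl z hz n hzn
  by_contra hnil
  haveI := hCl.fin
  obtain ⟨p, hidem, hne⟩ := fitting (F := F) z hnil n
  set f := aeval z p * z ^ n with hf
  have hpc : ∀ a, aeval z p * a = a * aeval z p := aeval_central hz p
  have hzc : ∀ a, z ^ n * a = a * z ^ n := by
    intro a
    exact ((show Commute z a from hz a).pow_left n)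
  have hfc : ∀ a, f * a = a * f := by
    intro a
    rw [hf, mul_assoc, hzc a, ← mul_assoc, hpc a, mul_assoc]
  have hmem : ∀ (Q : Subgroup V) (w : A), (∀ a, w * a = a * w) → w ∈ FxR (cw F α) Q := by
    intro Q w hw
    rw [mem_cw]
    intro q _
    exact (hw _).symm
  have hfB : f ∈ BKR (cw F α) ⊤ :=
    (hBki F V A α ⊤ (aeval z p) (hmem ⊤ _ hpc) (z ^ n) hzn).1
  have hfb : f ∈ BKR (cw F α) ⊥ := by
    apply hCl.blk ⊥ f (hmem ⊤ f hfc)
    · rw [hidem, sub_self]; exact Submodule.zero_mem _
    · intro a _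
      rw [hfc a, sub_self]; exact Submodule.zero_mem _
    · exact hfB
  rw [bkr_bot, Submodule.mem_bot] at hfb
  exact hne hfb

end Pool.Agent.PST.H52
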